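import Pool.Agent.R205.PC.Z9

/-!
# Polynomial multiple averages in almost every group extension of an arbitrary system

`(Y, μ, S)` is an arbitrary invertible measure preserving system on a standard Borel probability space,
not necessarily ergodic, without periodic points (up to a null set). `K` is a group with measurable
multiplication and inversion and a probability measure `ρ` invariant under all left and right translations (for
example any compact second countable group, commutative or not, with its Haar measure).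

For a measurable `c : Y → K` let `T_0 (y, x) = (S y, c y * x)` be the skew product on `Y × K`, and for
`κ_1, …, κ_d ∈ K` let `T_i (y, x) = (y, x * κ_i)`: these maps commute with `T_0` and preserve `μ × ρ`. The group
generated by `T_0, …, T_d` is nilpotent when the `κ_i` generate a nilpotent group (of any step), for instance for every
choice of the `κ_i` in a nilpotent `K`; the theorem does not need this.

The theorem: there is a measurable `ξ : Y → ℕ`, that is, a countable measurable partition of `Y`, such that for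
EVERY such `K` and EVERY cocycle `φ : Y → K` the cocycles `c(y) = φ(y) θ(ξ(y))`, with independent `ρ`-distributed
constants `θ(i)` on the pieces `ξ = i`, have the following properties.

1. Let `P_ij ∈ ℤ[t]`, `0 ≤ i ≤ d`, `1 ≤ j ≤ m` be such that the exponents `P_0j` of `T_0` are not constant and their
   differences `P_0i - P_0j`, `i ≠ j`, are not constant (no condition on the other `P_ij`), let `g_j(t)` be
   `T_0^(P_0j(t)) ⋯ T_d^(P_dj(t))` and let `f_1, …, f_m` be bounded and measurable on `Y × K`. For almost every `θ` and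
   almost every `z = (y, x)` the average over `|t| ≤ N` of
   `∏_j f_j (g_j(t) z) - ∏_j E(f_j | Y) (S^(P_0j(t)) y)` tends to zero. So the base `Y` is characteristic for almost
   every cocycle, for almost everywhere convergence.
2. Hence the averages of `∏_j f_j (g_j(t) z)` converge almost everywhere, for almost every `θ`, whenever the averages
   of the products of the fibre means `E(f_j | Y)` converge almost everywhere on the base `Y`: for instance always when
   the `E(f_j | Y)` are constant, or one of them is zero.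
3. More generally, 1 holds for arbitrary uniformly bounded sequences of functions `F_j(t, ·)` in place of the `f_j`.

Proof. There are nested marker sets with bounded gaps and labels which do not repeat along long pieces of orbits,
so that at all scales every window of the orbit of length about `N^(1/2)` contains a time whose label `ξ` does not
occur elsewhere in the range `|t| ≤ N^D` (`Pool.Agent.R205.PC.exists_labels`, `Fresh2`). For every single point
`(y, x)`, integrating over the constant with this label shows that, after subtracting the fibre means, the terms for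
`t` and `t'` are orthogonal with respect to `θ` as soon as the times `0`, `P_0j(t)`, `P_0j(t')` are separated by the
window length, which fails only for few pairs. A second moment argument along `N = r^q` and Fubini's theorem finish
the proof.
-/

set_option autoImplicit false

open MeasureTheory Filter Topology

namespace Pool.Agent.Results.MP_4d8f14_an.AlmostEveryCocycle

universe u v

/-- the skew product `(y, x) ↦ (S y, c y * x)` as a permutation of `Y × K` -/
def skew {Y : Type u} {K : Type v} [Group K] (S : Equiv.Perm Y) (c : Y → K) : Equiv.Perm (Y × K) where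
  toFun z := (S z.1, c z.1 * z.2)
  invFun z := (S.symm z.1, (c (S.symm z.1))⁻¹ * z.2)
  left_inv z := by simp
  right_inv z := by simp

/-- the right translation `(y, x) ↦ (y, x * κ)` of the fibres -/
def trans {Y : Type u} {K : Type v} [Group K] (κ : K) : Equiv.Perm (Y × K) where
  toFun z := (z.1, z.2 * κ)
  invFun z := (z.1, z.2 * κ⁻¹)
  left_inv z := by simp
  right_inv z := by simp

/-- the maps `T_0 = skew S c` and `T_i = trans (κ_i)`, `1 ≤ i ≤ d` -/
def maps {Y : Type u} {K : Type v} [Group K] (S : Equiv.Perm Y) (c : Y → K) {d : ℕ} (κ : Fin d → K) :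
    Fin (d + 1) → Equiv.Perm (Y × K) :=
  Fin.cons (skew S c) fun i => trans (κ i)

/-- the averages over `|t| ≤ N` -/
noncomputable def avg (u : ℤ → ℂ) (N : ℕ) : ℂ :=
  (1 / (2 * (N : ℂ) + 1)) * ∑ t ∈ Finset.Icc (-(N : ℤ)) N, u t

theorem result {Y : Type u} [MeasurableSpace Y] [StandardBorelSpace Y] (μ : Measure Y) [IsProbabilityMeasure μ]
    (S : Y ≃ᵐ Y) (hS : MeasurePreserving S μ μ) (hap : ∀ᵐ y ∂μ, ∀ n : ℕ, 0 < n → S^[n] y ≠ y) :
    ∃ ξ : Y → ℕ, Measurable ξ ∧ ∀ (K : Type v) [Group K] [MeasurableSpace K] [MeasurableMul₂ K] [MeasurableInv K]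
      (ρ : Measure K) [IsProbabilityMeasure ρ] [ρ.IsMulLeftInvariant] [ρ.IsMulRightInvariant] (φ : Y → K),
      Measurable φ →
      -- the maps preserve the measure and the translations commute with the skew product
      (∀ (d : ℕ) (κ : Fin d → K) (θ : ℕ → K) (i : Fin (d + 1)),
        MeasurePreserving (maps S.toEquiv (fun y => φ y * θ (ξ y)) κ i) (μ.prod ρ) (μ.prod ρ) ∧
        Commute (maps S.toEquiv (fun y => φ y * θ (ξ y)) κ 0) (maps S.toEquiv (fun y => φ y * θ (ξ y)) κ i)) ∧
      -- 1 and 2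
      (∀ (d m : ℕ) (κ : Fin d → K) (P : Fin (d + 1) → Fin m → Polynomial ℤ), (∀ j, 0 < (P 0 j).natDegree) →
        (∀ i j, i ≠ j → 0 < (P 0 i - P 0 j).natDegree) →
        ∀ f : Fin m → Y × K → ℂ, (∀ j, Measurable (f j)) → (∃ C, ∀ j z, ‖f j z‖ ≤ C) →
        (∀ᵐ θ ∂(Measure.infinitePi (fun _ : ℕ => ρ)), ∀ᵐ z ∂(μ.prod ρ), Tendsto (fun N =>
          avg (fun t => ∏ j, f j ((List.ofFn fun i => maps S.toEquiv (fun y => φ y * θ (ξ y)) κ i ^
            (P i j).eval t).prod z)) N -
          avg (fun t => ∏ j, ∫ x, f j (((S.toEquiv : Equiv.Perm Y) ^ (P 0 j).eval t) z.1, x) ∂ρ) N) atTop (𝓝 0)) ∧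
        ((∀ᵐ y ∂μ, ∃ L : ℂ, Tendsto (fun N =>
            avg (fun t => ∏ j, ∫ x, f j (((S.toEquiv : Equiv.Perm Y) ^ (P 0 j).eval t) y, x) ∂ρ) N) atTop (𝓝 L)) →
          ∀ᵐ θ ∂(Measure.infinitePi (fun _ : ℕ => ρ)), ∀ᵐ z ∂(μ.prod ρ), ∃ L : ℂ, Tendsto (fun N =>
            avg (fun t => ∏ j, f j ((List.ofFn fun i => maps S.toEquiv (fun y => φ y * θ (ξ y)) κ i ^
              (P i j).eval t).prod z)) N) atTop (𝓝 L))) ∧
      -- 3
      (∀ (m : ℕ) (P : Fin m → Polynomial ℤ), (∀ j, 0 < (P j).natDegree) →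
        (∀ i j, i ≠ j → 0 < (P i - P j).natDegree) →
        ∀ F : Fin m → ℤ → Y × K → ℂ, (∀ j t, Measurable (F j t)) → (∃ C, ∀ j t z, ‖F j t z‖ ≤ C) →
        ∀ᵐ θ ∂(Measure.infinitePi (fun _ : ℕ => ρ)), ∀ᵐ z ∂(μ.prod ρ), Tendsto (fun N =>
          avg (fun t => ∏ j, F j t ((skew S.toEquiv (fun y => φ y * θ (ξ y)) ^ (P j).eval t) z)) N -
          avg (fun t => ∏ j, ∫ x, F j t (((S.toEquiv : Equiv.Perm Y) ^ (P j).eval t) z.1, x) ∂ρ) N) atTop (𝓝 0)) := by
  classical
  obtain ⟨ξ, hξ, hfr⟩ := Pool.Agent.R205.PC.exists_labels μ S hS hap Pool.Agent.R205.PC.Lk Pool.Agent.R205.PC.Lk_mono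
  refine ⟨ξ, hξ, ?_⟩
  intro K _ _ _ _ ρ _ _ _ φ hφ
  have hfr' : ∀ᵐ y ∂μ, Pool.Agent.R205.PC.Fresh S ξ y := hfr
  have hfr2 := Pool.Agent.R205.PC.fresh2_ae μ S hS ξ hfr'
  have hSz : ∀ p : ℤ, Measurable ((S.toEquiv : Equiv.Perm Y) ^ p) := by
    intro p
    induction p using Int.induction_on with
    | zero => exact measurable_id
    | succ n ih =>
      rw [zpow_add, zpow_one]
      exact ih.comp S.measurable
    | pred n ih =>
      rw [sub_eq_add_neg, zpow_add, zpow_neg_one]
      exact ih.comp S.symm.measurable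
  have hseq : ∀ (m : ℕ) (P : Fin m → Polynomial ℤ), (∀ j, 0 < (P j).natDegree) →
        (∀ i j, i ≠ j → 0 < (P i - P j).natDegree) →
        ∀ F : Fin m → ℤ → Y × K → ℂ, (∀ j t, Measurable (F j t)) → (∃ C, ∀ j t z, ‖F j t z‖ ≤ C) →
        ∀ᵐ θ ∂(Measure.infinitePi (fun _ : ℕ => ρ)), ∀ᵐ z ∂(μ.prod ρ), Tendsto (fun N =>
          avg (fun t => ∏ j, F j t ((skew S.toEquiv (fun y => φ y * θ (ξ y)) ^ (P j).eval t) z)) N -
          avg (fun t => ∏ j, ∫ x, F j t (((S.toEquiv : Equiv.Perm Y) ^ (P j).eval t) z.1, x) ∂ρ) N) atTop (𝓝 0) := by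
    intro m P hP hP' F hF hFb
    filter_upwards [Pool.Agent.R205.PC.two_sided ρ μ S.toEquiv hSz φ hφ ξ hξ hfr2 P hP hP' F hF hFb] with θ hθ
    filter_upwards [hθ] with z hz
    refine hz.congr fun N => ?_
    unfold avg Pool.Agent.R205.PC.tm
    rw [← mul_sub, ← Finset.sum_sub_distrib]
    rfl
  have hmain : ∀ (d m : ℕ) (κ : Fin d → K) (P : Fin (d + 1) → Fin m → Polynomial ℤ), (∀ j, 0 < (P 0 j).natDegree) →
        (∀ i j, i ≠ j → 0 < (P 0 i - P 0 j).natDegree) →
        ∀ f : Fin m → Y × K → ℂ, (∀ j, Measurable (f j)) → (∃ C, ∀ j z, ‖f j z‖ ≤ C) →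
        ∀ᵐ θ ∂(Measure.infinitePi (fun _ : ℕ => ρ)), ∀ᵐ z ∂(μ.prod ρ), Tendsto (fun N =>
          avg (fun t => ∏ j, f j ((List.ofFn fun i => maps S.toEquiv (fun y => φ y * θ (ξ y)) κ i ^
            (P i j).eval t).prod z)) N -
          avg (fun t => ∏ j, ∫ x, f j (((S.toEquiv : Equiv.Perm Y) ^ (P 0 j).eval t) z.1, x) ∂ρ) N) atTop (𝓝 0) := by
    intro d m κ P hP hP' f hf hfb
    obtain ⟨C, hC⟩ := hfb
    choose κ' hκ' using fun (j : Fin m) (t : ℤ) =>
      Pool.Agent.R205.PC.mps_prod (S.toEquiv : Equiv.Perm Y) κ (fun i => (P i j).eval t)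
    have h1 := hseq m (fun j => P 0 j) hP hP' (fun j t z => f j (z.1, z.2 * κ' j t))
      (fun j t => (hf j).comp (measurable_fst.prodMk (measurable_snd.mul measurable_const))) ⟨C, fun j t z => hC j _⟩
    filter_upwards [h1] with θ hθ
    filter_upwards [hθ] with z hz
    refine hz.congr fun N => ?_
    congr 1
    · congr 1
      funext t
      refine Finset.prod_congr rfl fun j _ => ?_
      have h2 := hκ' j t (fun y => φ y * θ (ξ y)) z
      change f j (((Pool.Agent.R205.PC.skp S.toEquiv (fun y => φ y * θ (ξ y)) ^ (P 0 j).eval t) z).1,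
        ((Pool.Agent.R205.PC.skp S.toEquiv (fun y => φ y * θ (ξ y)) ^ (P 0 j).eval t) z).2 * κ' j t) = _
      rw [← h2]
      rfl
    · congr 1
      funext t
      refine Finset.prod_congr rfl fun j _ => ?_
      exact congrFun (Pool.Agent.R205.PC.fm_right ρ (f j) (κ' j t)) _
  refine ⟨?_, ?_, hseq⟩
  · intro d κ θ i
    have hc : Measurable (fun y => φ y * θ (ξ y)) := hφ.mul ((measurable_of_countable θ).comp hξ)
    refine Fin.cases ?_ (fun i => ?_) i
    · exact ⟨Pool.Agent.R205.PC.mp_skp ρ μ S.toEquiv hS _ hc, Commute.refl _⟩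
    · refine ⟨Pool.Agent.R205.PC.mp_rgt ρ μ (κ i), ?_⟩
      refine Equiv.ext fun z => ?_
      change (S z.1, (φ z.1 * θ (ξ z.1)) * (z.2 * κ i)) = (S z.1, ((φ z.1 * θ (ξ z.1)) * z.2) * κ i)
      rw [mul_assoc, mul_assoc, mul_assoc]
  · intro d m κ P hP hP' f hf hfb
    have h1 := hmain d m κ P hP hP' f hf hfb
    refine ⟨h1, fun hL => ?_⟩
    have hL' : ∀ᵐ z ∂(μ.prod ρ), ∃ L : ℂ, Tendsto (fun N =>
            avg (fun t => ∏ j, ∫ x, f j (((S.toEquiv : Equiv.Perm Y) ^ (P 0 j).eval t) z.1, x) ∂ρ) N) atTop (𝓝 L) :=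
      Measure.quasiMeasurePreserving_fst.ae hL
    filter_upwards [h1] with θ hθ
    filter_upwards [hθ, hL'] with z hz hzL
    obtain ⟨L, hzL⟩ := hzL
    refine ⟨L, ?_⟩
    have h3 := hz.add hzL
    rw [zero_add] at h3
    exact h3.congr fun N => by ring

end Pool.Agent.Results.MP_4d8f14_an.AlmostEveryCocycle
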