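import Pool.Agent.Y957.MC.Maps

set_option autoImplicit false

/-!
# Multiple averages of arbitrary maps at the times `[a_j P_j(n)]`, for almost all `a_j`

Let `T_1, ..., T_m` be ANY measure preserving maps of a probability space `(X, μ)`, with no relation between them:
they need not be invertible, ergodic, nor commute or generate a nilpotent (or amenable) group or semigroup, and some or
all of them may be equal. Let `p_j(n) = n^θ_j` with `θ_j > 0`, or `p_j` a real polynomial which tends to infinity, and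
`f_j` in `L^∞`. For Lebesgue almost every `(a_1, ..., a_m)` with `a_j > 0`, for almost every `x`
`(1/N) ∑_{n ≤ N} ∏ f_j (T_j^[a_j p_j(n)] x) → ∏ E(f_j | T_j)(x)`.

In particular the multiple polynomial averages of the problem converge almost everywhere for every choice of the maps
(nilpotent or not) when the integer polynomials `P_j(n)`, one for each map, are replaced by `[a_j P_j(n)]`, for almost
every choice of the real numbers `a_j > 0`.

Proof (`Pool.Agent.Y957.MC`, theorems `bty_all`, `maps_Linf`): for one map, almost every `x`, EVERY bounded sequence `B`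
and almost every `a`, `(1/N) ∑ B(n) (f(T^[a p(n)] x) - E(f|T)(x)) → 0` (Parseval in `log a`, Halász-Montgomery and
van der Corput, then a second moment estimate for averages of nonnegative functions), and Fubini's theorem.
-/

namespace Pool.Agent.Results.MP_4d8f14_an.BeattyTimes

open MeasureTheory Filter Finset

universe u

/-- the sequences `n^θ`, `θ > 0`, and real polynomials tending to infinity -/
def IsTimes (p : ℕ → ℝ) : Prop :=
  (∃ θ : ℝ, 0 < θ ∧ ∀ n : ℕ, p n = (n : ℝ) ^ θ) ∨
  (∃ P : Polynomial ℝ, 0 < P.natDegree ∧ 0 < P.leadingCoeff ∧ ∀ n : ℕ, p n = P.eval (n : ℝ))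

theorem result (X : Type u) [MeasurableSpace X] (μ : Measure X) [IsProbabilityMeasure μ] (m : ℕ)
    (T : Fin m → X → X) (hT : ∀ j, MeasurePreserving (T j) μ μ) (p : Fin m → ℕ → ℝ) (hp : ∀ j, IsTimes (p j))
    (f : Fin m → X → ℂ) (hf : ∀ j, AEStronglyMeasurable (f j) μ) (hfb : ∀ j, ∃ C : ℝ, ∀ᵐ x ∂μ, ‖f j x‖ ≤ C) :
    ∀ᵐ a : Fin m → ℝ, (∀ j, 0 < a j) → ∀ᵐ x ∂μ,
      Tendsto (fun N : ℕ => (1 / (N : ℂ)) * ∑ n ∈ Icc 1 N, ∏ j, f j ((T j)^[⌊a j * p j n⌋₊] x)) atTop
        (nhds (∏ j, (μ[f j | MeasurableSpace.invariants (T j)]) x)) := by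
  have hG : ∀ j, Pool.Agent.Y957.MC.Good (p j) := by
    intro j
    rcases hp j with ⟨θ, h1, h2⟩ | ⟨P, h1, h2, h3⟩
    · rw [show p j = fun n : ℕ => (n : ℝ) ^ θ from funext h2]
      exact Pool.Agent.Y957.MC.good_pow h1
    · rw [show p j = fun n : ℕ => P.eval (n : ℝ) from funext h3]
      exact Pool.Agent.Y957.MC.good_poly h1 h2
  exact Pool.Agent.Y957.MC.maps_Linf hT hG hf hfb

end Pool.Agent.Results.MP_4d8f14_an.BeattyTimes
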