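import Pool.Agent.R497.TD.Main
import Pool.Agent.R497.TD.Core2
import Pool.Agent.R441.TDBC
import Pool.Agent.R506.TDFG
import Pool.Agent.R506.TDTOP
import Pool.Agent.R574.TDAPX
import Pool.Agent.R711.TDDBD
import Pool.Agent.R711.TDOSC
import Pool.Agent.R746.TDKAP
import Pool.Agent.R998.TDAPXG
import Pool.Agent.R235.TD.Corer
import Pool.Agent.R392.TD.Ctrl
import Pool.Agent.R497.TD.PINC
import Pool.Agent.R724.TD.PROD
import Pool.Agent.R724.TD.PTW
import Pool.Agent.R258.TDJBD

set_option autoImplicit false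

/-!
# Arbitrary flows at one generic time, polynomials of distinct degrees

Let `τ_1, ..., τ_m` and `σ` be measurable measure preserving flows on a probability space `(X, μ)`, with NO relation
between them: they need not commute, nor generate a nilpotent group; `f_j`, `g` in `L^∞`, `P_j`, `Q` real polynomials
of positive degree, and `W_n`, `n ∈ ℤ`, any uniformly bounded measurable functions (weights).

1. Decoupling. If all `P_j` have smaller degree than `Q`, then for almost every real `a`, for almost every `x`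
   `(1/N) ∑_{n ≤ N} W_n(x) ∏ f_j(τ_j(a P_j(n)) x) (g(σ(a Q(n)) x) - E(g|σ)(x)) → 0`.
2. If the degrees of the `P_j` are distinct, then for almost every real `a`, for almost every `x`
   `1/(2N+1) ∑_{|n| ≤ N} W_n(x) (∏ f_j(τ_j(a P_j(n)) x) - ∏ E(f_j|τ_j)(x)) → 0`.
3. In particular (`W = 1`) the averages over `|n| ≤ N` of `∏ f_j(τ_j(a P_j(n)) x)` converge for almost every `x` to
   `∏ E(f_j|τ_j)(x)`. For integer `P_j` and the maps `T_j = τ_j(a)` these are the averages of `∏ f_j(T_j^(P_j(n)) x)`: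
   the averages of the problem for any family of flows, at almost every time `a`.

The time `a` is the same for all flows. The starting result `GenericTimesOfFlows` needs independent generic times
`(a_1, ..., a_m)`, here the `m`-tuple of times is generic on each line through the origin. Without a generic time
the averages of `f(T^n x) g(S^(n^2) x)` can diverge, even in `L^2`, for maps `T`, `S` which do not commute (Austin).

Proof. Let `N = K^16`. Mean squares over `a ∈ [1, 2]` and `x`. The product of the factors of lower degree is almost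
constant in `a` over windows of length `ℓ = N^(1-d) K^(-2)`, `d = deg Q`. By the Cauchy-Schwarz inequality, applied to
the Gram matrix of the vectors `s ↦ g(σ((a+s) Q(n)) x)`, `0 ≤ s ≤ ℓ`, the coefficients can be removed, at the cost of
the product of two copies of `g` at the times `a Q(n)` and `(a + δ) Q(n)`, `|δ| ≤ ℓ`. With
`V_n(y) = g(y) g(σ(δ Q(n)) y)` the mean square of `(1/N) ∑ V_n(σ(a Q(n)) x)` over `a ∈ [1/2, 3]` is a sum over pairs
`(n, n')` of `∫ (∫ V_n(σ(a y) x) V_{n'}(x) dμ) da`, `y = Q(n) - Q(n')`, and these depend slowly on `y`. So over blocks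
of length `K^8` the `V_n` can be replaced by their averages, which are small if `g` is a smooth coboundary, for any
flow, since `δ Q(n)` moves slowly over the block, but over a long range. All this saves a power of `N`. The general
case follows with the convergence for one function (`Pool.Agent.Y957.MC`).
-/

namespace Pool.Agent.Results.MP_4d8f14_an.DistinctDegrees

open MeasureTheory Filter Finset

universe u

/-- a measurable measure preserving flow -/
structure IsFlow {X : Type u} [MeasurableSpace X] (μ : Measure X) (τ : ℝ → X → X) : Prop where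
  meas : Measurable (fun p : ℝ × X => τ p.1 p.2)
  zero : ∀ x, τ 0 x = x
  add : ∀ s t x, τ (s + t) x = τ s (τ t x)
  mp : ∀ t, MeasurePreserving (τ t) μ μ

/-- `f` is in `L^∞` -/
def EssBdd {X : Type u} [MeasurableSpace X] (μ : Measure X) (f : X → ℂ) : Prop :=
  AEStronglyMeasurable f μ ∧ ∃ C : ℝ, ∀ᵐ x ∂μ, ‖f x‖ ≤ C

/-- uniformly bounded measurable weights -/
def Weights {X ι : Type*} [MeasurableSpace X] (μ : Measure X) (W : ι → X → ℂ) : Prop :=
  (∀ n, AEStronglyMeasurable (W n) μ) ∧ ∃ C : ℝ, ∀ n, ∀ᵐ x ∂μ, ‖W n x‖ ≤ C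

/-- the conditional expectation on the sets invariant under the flow -/
noncomputable def inv {X : Type u} [MeasurableSpace X] (μ : Measure X) (τ : ℝ → X → X) (f : X → ℂ) : X → ℂ :=
  μ[f | ⨅ t : ℝ, MeasurableSpace.invariants (τ t)]

theorem result (X : Type u) [MeasurableSpace X] (μ : Measure X) [IsProbabilityMeasure μ] (m : ℕ)
    (τ : Fin m → ℝ → X → X) (f : Fin m → X → ℂ) (P : Fin m → Polynomial ℝ) (hτ : ∀ j, IsFlow μ (τ j))
    (hf : ∀ j, EssBdd μ (f j)) (hP : ∀ j, 0 < (P j).natDegree) :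
    (∀ (σ : ℝ → X → X) (g : X → ℂ) (Q : Polynomial ℝ) (W : ℕ → X → ℂ), IsFlow μ σ → EssBdd μ g →
      0 < Q.natDegree → (∀ j, (P j).natDegree < Q.natDegree) → Weights μ W → ∀ᵐ a : ℝ, ∀ᵐ x ∂μ,
        Tendsto (fun N : ℕ => (1 / (N : ℂ)) * ∑ n ∈ Icc 1 N,
          (W n x * ∏ j, f j (τ j (a * (P j).eval (n : ℝ)) x)) * (g (σ (a * Q.eval (n : ℝ)) x) - inv μ σ g x))
          atTop (nhds 0)) ∧
    ((Function.Injective fun j => (P j).natDegree) →
      (∀ W : ℤ → X → ℂ, Weights μ W → ∀ᵐ a : ℝ, ∀ᵐ x ∂μ,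
        Tendsto (fun N : ℕ => (1 / (2 * (N : ℂ) + 1)) * ∑ n ∈ Icc (-(N : ℤ)) N,
          W n x * (∏ j, f j (τ j (a * (P j).eval (n : ℝ)) x) - ∏ j, inv μ (τ j) (f j) x)) atTop (nhds 0)) ∧
      ∀ᵐ a : ℝ, ∀ᵐ x ∂μ,
        Tendsto (fun N : ℕ => (1 / (2 * (N : ℂ) + 1)) * ∑ n ∈ Icc (-(N : ℤ)) N,
          ∏ j, f j (τ j (a * (P j).eval (n : ℝ)) x)) atTop (nhds (∏ j, inv μ (τ j) (f j) x))) := by
  have hτ' : ∀ j, Pool.Agent.Y957.MC.IsFlow μ (τ j) := fun j => ⟨(hτ j).meas, (hτ j).zero, (hτ j).add, (hτ j).mp⟩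
  have hCTRL : Pool.Agent.R497.TD.S_CTRL.{u} := Pool.Agent.R392.TD.t_CTRL
  have hDBD : Pool.Agent.R497.TD.S_DBD.{u} := Pool.Agent.R711.TDDBD.t_DBD Pool.Agent.R746.t_KAP
  have hJBD : Pool.Agent.R497.TD.S_JBD.{u} := Pool.Agent.R258.TDJBD.t_JBD Pool.Agent.R724.TD.t_PTW
  have hCORE : Pool.Agent.R497.TD.S_CORE.{u} := Pool.Agent.R497.TD.t_CORE Pool.Agent.R711.TDOSC.t_OSC hDBD hJBD
    Pool.Agent.R497.TD.PINC784.t_PINC Pool.Agent.R441.TDBC.t_BC
  have hTOP : Pool.Agent.R497.TD.S_TOP.{u} := Pool.Agent.R506.TDTOP.t_TOP (Pool.Agent.R235.TD.t_CORER hCORE) hCTRL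
    Pool.Agent.R998.TD.t_APXG
  have hFG : Pool.Agent.R497.TD.S_FG.{u} := Pool.Agent.R506.TDFG.t_FG hCTRL Pool.Agent.R574.TDAPX.t_APX
  have hPROD : Pool.Agent.R497.TD.S_PROD.{u} := Pool.Agent.R724.TD.t_PROD
  have hWG : Pool.Agent.R497.TD.S_WG.{u} := Pool.Agent.R497.TD.PINC784.t_WG
  have hFIN : Pool.Agent.R497.TD.S_FIN.{u} := Pool.Agent.R62.TD.t_FIN hTOP hFG hPROD hWG
  refine ⟨fun σ g Q W hσ hg hQ hPQ hW => ?_, fun hinj => ?_⟩
  · exact Pool.Agent.R497.TD.dec hTOP hFG hPROD hWG hτ' (fun j => (hf j).1) (fun j => (hf j).2) hP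
      ⟨hσ.meas, hσ.zero, hσ.add, hσ.mp⟩ hg.1 hg.2 hQ hPQ hW.1 hW.2
  · have h2 : ∀ W : ℤ → X → ℂ, Weights μ W → ∀ᵐ a : ℝ, ∀ᵐ x ∂μ,
        Tendsto (fun N : ℕ => (1 / (2 * (N : ℂ) + 1)) * ∑ n ∈ Icc (-(N : ℤ)) N,
          W n x * (∏ j, f j (τ j (a * (P j).eval (n : ℝ)) x) - ∏ j, inv μ (τ j) (f j) x)) atTop (nhds 0) :=
      fun W hW => Pool.Agent.R497.TD.fin_two hFIN hτ' (fun j => (hf j).1) (fun j => (hf j).2) hP hinj hW.1 hW.2
    refine ⟨h2, ?_⟩
    filter_upwards [h2 (fun _ _ => 1) ⟨fun _ => aestronglyMeasurable_const, 1, fun _ => ae_of_all _ fun _ => by simp⟩]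
      with a ha
    filter_upwards [ha] with x hx
    have h3 := hx.add_const (∏ j, inv μ (τ j) (f j) x)
    rw [zero_add] at h3
    refine h3.congr fun N => ?_
    have hne := Pool.Agent.R497.TD.two_ne N
    have hcard : ((Icc (-(N : ℤ)) N).card : ℂ) = 2 * (N : ℂ) + 1 := by
      rw [Int.card_Icc]
      have : ((N : ℤ) + 1 - -(N : ℤ)).toNat = 2 * N + 1 := by omega
      rw [this]
      push_cast
      ring
    simp only [one_mul]
    rw [sum_sub_distrib, sum_const, nsmul_eq_mul, hcard]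
    field_simp
    ring

end Pool.Agent.Results.MP_4d8f14_an.DistinctDegrees
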