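import Pool.Agent.R497.TM.Main
import Pool.Agent.R497.TM.Sfl
import Pool.Agent.R497.TD.Core2
import Pool.Agent.R497.TD.PINC
import Pool.Agent.R441.TDBC
import Pool.Agent.R506.TDFG
import Pool.Agent.R506.TDTOP
import Pool.Agent.R574.TDAPX
import Pool.Agent.R711.TDDBD
import Pool.Agent.R711.TDOSC
import Pool.Agent.R746.TDKAP
import Pool.Agent.R998.TDAPXG
import Pool.Agent.R235.TD.Corer
import Pool.Agent.R392.TD.Ctrl
import Pool.Agent.R724.TD.PROD
import Pool.Agent.R724.TD.PTW
import Pool.Agent.R258.TDJBD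
import Pool.Agent.R21.TMEQD
import Pool.Agent.R262.TMTR
import Pool.Agent.R452.TMSCE
import Pool.Agent.R766.TMMTOP
import Pool.Agent.R861.TMMFIN

set_option autoImplicit false

/-!
# Arbitrary maps at the times `[a P_j(n)]`, one generic real number `a`, distinct degrees

Let `T_1, ..., T_r` and `S` be ANY invertible measure preserving maps of a probability space `(X, μ)`, with no relation
between them: they need not commute, nor generate a nilpotent group. Let `f_j`, `g` be in `L^∞`, `P_j`, `Q` real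
polynomials of positive degree, and `W_n`, `n ∈ ℤ`, any uniformly bounded measurable functions (weights). Averages over
`|n| ≤ N`, `N → ∞`; `[y]` is the integer part.

1. Decoupling. If all `P_j` have smaller degree than `Q`, then for almost every real `a`, for almost every `x`, the
   averages of `W_n(x) ∏ f_j(T_j^[a P_j(n)] x) (g(S^[a Q(n)] x) - E(g|S)(x))` tend to `0`.
2. If the degrees of the `P_j` are distinct, then for almost every real `a`, for almost every `x`, the averages of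
   `W_n(x) (∏ f_j(T_j^[a P_j(n)] x) - ∏ E(f_j|T_j)(x))` tend to `0`.
3. In particular (`W = 1`) the averages of `∏ f_j(T_j^[a P_j(n)] x)` converge for almost every `x` to
   `∏ E(f_j|T_j)(x)`, for example those of `f(T^[a n] x) g(S^[a n^2] x)`.

There is only one parameter `a`, common to all maps; for `a = 1` and integer `P_j` the times are those of the problem.
Then the averages can diverge for maps which do not commute (Austin).

Proof. The suspension flows of the maps `T_j` can be defined on one space `[0, 1) × X`, with a common height, and for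
these (which do not commute, even if the `T_j` do) the statements hold by `DistinctDegrees`. So for almost every
height `s` and almost every `x` they hold with `[s + a P_j(n)]` instead of `[a P_j(n)]`. Now let `s` tend to zero: the
proportion of the `n` for which the two differ is at most `s`, by equidistribution of `a P_j(n)` modulo one.
-/

namespace Pool.Agent.Results.MP_4d8f14_an.DistinctDegreesMaps

open MeasureTheory Filter Finset

universe u

/-- `f` is in `L^∞` -/
def EssBdd {X : Type u} [MeasurableSpace X] (μ : Measure X) (f : X → ℂ) : Prop :=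
  AEStronglyMeasurable f μ ∧ ∃ C : ℝ, ∀ᵐ x ∂μ, ‖f x‖ ≤ C

/-- uniformly bounded measurable weights -/
def Weights {X : Type u} [MeasurableSpace X] (μ : Measure X) (W : ℤ → X → ℂ) : Prop :=
  (∀ n, AEStronglyMeasurable (W n) μ) ∧ ∃ C : ℝ, ∀ n, ∀ᵐ x ∂μ, ‖W n x‖ ≤ C

/-- the power `T^k`, `k ∈ ℤ` -/
noncomputable def pw {X : Type u} [MeasurableSpace X] (T : X ≃ᵐ X) (k : ℤ) (x : X) : X :=
  ((T.toEquiv : Equiv.Perm X) ^ k) x

/-- the conditional expectation on the sets invariant under the map -/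
noncomputable def inv {X : Type u} [MeasurableSpace X] (μ : Measure X) (T : X ≃ᵐ X) (f : X → ℂ) : X → ℂ :=
  μ[f | MeasurableSpace.invariants T]

/-- the average over `|n| ≤ N` -/
noncomputable def avg (N : ℕ) (u : ℤ → ℂ) : ℂ := (1 / (2 * (N : ℂ) + 1)) * ∑ n ∈ Icc (-(N : ℤ)) N, u n

theorem result (X : Type u) [MeasurableSpace X] (μ : Measure X) [IsProbabilityMeasure μ] (r : ℕ)
    (T : Fin r → X ≃ᵐ X) (f : Fin r → X → ℂ) (P : Fin r → Polynomial ℝ) (hT : ∀ j, MeasurePreserving (T j) μ μ)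
    (hf : ∀ j, EssBdd μ (f j)) (hP : ∀ j, 0 < (P j).natDegree) :
    (∀ (S : X ≃ᵐ X) (g : X → ℂ) (Q : Polynomial ℝ) (W : ℤ → X → ℂ), MeasurePreserving S μ μ → EssBdd μ g →
      0 < Q.natDegree → (∀ j, (P j).natDegree < Q.natDegree) → Weights μ W → ∀ᵐ a : ℝ, ∀ᵐ x ∂μ,
        Tendsto (fun N : ℕ => avg N fun n => (W n x * ∏ j, f j (pw (T j) ⌊a * (P j).eval (n : ℝ)⌋ x)) *
          (g (pw S ⌊a * Q.eval (n : ℝ)⌋ x) - inv μ S g x)) atTop (nhds 0)) ∧
    ((Function.Injective fun j => (P j).natDegree) →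
      (∀ W : ℤ → X → ℂ, Weights μ W → ∀ᵐ a : ℝ, ∀ᵐ x ∂μ,
        Tendsto (fun N : ℕ => avg N fun n => W n x * (∏ j, f j (pw (T j) ⌊a * (P j).eval (n : ℝ)⌋ x) -
          ∏ j, inv μ (T j) (f j) x)) atTop (nhds 0)) ∧
      ∀ᵐ a : ℝ, ∀ᵐ x ∂μ,
        Tendsto (fun N : ℕ => avg N fun n => ∏ j, f j (pw (T j) ⌊a * (P j).eval (n : ℝ)⌋ x)) atTop
          (nhds (∏ j, inv μ (T j) (f j) x))) := by
  have hCTRL : Pool.Agent.R497.TD.S_CTRL.{u} := Pool.Agent.R392.TD.t_CTRL
  have hDBD : Pool.Agent.R497.TD.S_DBD.{u} := Pool.Agent.R711.TDDBD.t_DBD Pool.Agent.R746.t_KAP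
  have hJBD : Pool.Agent.R497.TD.S_JBD.{u} := Pool.Agent.R258.TDJBD.t_JBD Pool.Agent.R724.TD.t_PTW
  have hCORE : Pool.Agent.R497.TD.S_CORE.{u} := Pool.Agent.R497.TD.t_CORE Pool.Agent.R711.TDOSC.t_OSC hDBD hJBD
    Pool.Agent.R497.TD.PINC784.t_PINC Pool.Agent.R441.TDBC.t_BC
  have hTOP : Pool.Agent.R497.TD.S_TOP.{u} := Pool.Agent.R506.TDTOP.t_TOP (Pool.Agent.R235.TD.t_CORER hCORE) hCTRL
    Pool.Agent.R998.TD.t_APXG
  have hFG : Pool.Agent.R497.TD.S_FG.{u} := Pool.Agent.R506.TDFG.t_FG hCTRL Pool.Agent.R574.TDAPX.t_APX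
  have hPROD : Pool.Agent.R497.TD.S_PROD.{u} := Pool.Agent.R724.TD.t_PROD
  have hWG : Pool.Agent.R497.TD.S_WG.{u} := Pool.Agent.R497.TD.PINC784.t_WG
  have hFIN : Pool.Agent.R497.TD.S_FIN.{u} := Pool.Agent.R62.TD.t_FIN hTOP hFG hPROD hWG
  have hTR : Pool.Agent.R497.TM.S_TR.{u} := Pool.Agent.R262.TM.t_TR Pool.Agent.R21.TM.t_EQD
  have hMFIN : Pool.Agent.R497.TM.S_MFIN.{u} := Pool.Agent.R861.TM.t_MFIN Pool.Agent.R497.TM.t_SFL
    Pool.Agent.R452.TM.t_SCE hTR hFIN
  have hMTOP : Pool.Agent.R497.TM.S_MTOP.{u} := Pool.Agent.R766.TM.t_MTOP Pool.Agent.R497.TM.t_SFL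
    Pool.Agent.R452.TM.t_SCE hTR hTOP hFG hPROD hWG
  refine ⟨fun S g Q W hS hg hQ hPQ hW => ?_, fun hinj => ?_⟩
  · exact Pool.Agent.R497.TM.mtop_two hMTOP hT (fun j => (hf j).1) (fun j => (hf j).2) hP hS hg.1 hg.2 hQ hPQ hW.1 hW.2
  · have h2 : ∀ W : ℤ → X → ℂ, Weights μ W → ∀ᵐ a : ℝ, ∀ᵐ x ∂μ,
        Tendsto (fun N : ℕ => avg N fun n => W n x * (∏ j, f j (pw (T j) ⌊a * (P j).eval (n : ℝ)⌋ x) -
          ∏ j, inv μ (T j) (f j) x)) atTop (nhds 0) :=
      fun W hW => Pool.Agent.R497.TM.mfin_two hMFIN hT (fun j => (hf j).1) (fun j => (hf j).2) hP hinj hW.1 hW.2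
    refine ⟨h2, ?_⟩
    filter_upwards [h2 (fun _ _ => 1) ⟨fun _ => aestronglyMeasurable_const, 1, fun _ => ae_of_all _ fun _ => by simp⟩]
      with a ha
    filter_upwards [ha] with x hx
    have h3 := hx.add_const (∏ j, inv μ (T j) (f j) x)
    rw [zero_add] at h3
    refine h3.congr fun N => ?_
    have hne := Pool.Agent.R497.TD.two_ne N
    have hcard : ((Icc (-(N : ℤ)) N).card : ℂ) = 2 * (N : ℂ) + 1 := by
      rw [Int.card_Icc]
      have : ((N : ℤ) + 1 - -(N : ℤ)).toNat = 2 * N + 1 := by omega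
      rw [this]
      push_cast
      ring
    unfold avg
    simp only [one_mul]
    rw [sum_sub_distrib, sum_const, nsmul_eq_mul, hcard]
    field_simp
    ring

end Pool.Agent.Results.MP_4d8f14_an.DistinctDegreesMaps
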